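import Mathlib

/-!
# Bi-Hölder embeddings of the circle by Weierstrass-type functions (MP_0a5dd0_an, Q1)

For every integer `b ≥ 2` and every `0 < α < 1` there are finitely many `1`-periodic Lipschitz
functions `g_1, …, g_m` such that `x ↦ (W_{g_1}(x), …, W_{g_m}(x))` is `α`-bi-Hölder on the circle.

The functions: for close points, sawtooth functions that rise with slope one on a short interval and
fall with a very small slope on the rest of the period; for distant points, `g` with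
`W_g = dist(·, z)`.
-/

set_option autoImplicit false

open Set

namespace Pool.Agent.Results.MP_0a5dd0_an.Embedding

/-- `W_g(x) = ∑ b^{-αk} g(b^k x)`. -/
noncomputable def W (b : ℕ) (α : ℝ) (g : ℝ → ℝ) (x : ℝ) : ℝ :=
  ∑' k : ℕ, (b : ℝ) ^ (-(α * k)) * g ((b : ℝ) ^ k * x)

/-- The Weierstrass embedding, on real representatives. -/
noncomputable def Phi (b : ℕ) (α : ℝ) {m : ℕ} (g : Fin m → ℝ → ℝ) (x : ℝ) :
    EuclideanSpace ℝ (Fin m) :=
  WithLp.toLp 2 fun i => W b α (g i) x

/-- The distance on the circle `ℝ/ℤ`, of real representatives: `min_n |x - y - n|`. -/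
noncomputable def d (x y : ℝ) : ℝ := ⨅ n : ℤ, |x - y - n|

section series

variable {b : ℕ} {α : ℝ} {g : ℝ → ℝ} {B : ℝ}

lemma r_pow (hb : 2 ≤ b) (k : ℕ) : (b : ℝ) ^ (-(α * k)) = ((b : ℝ) ^ (-α)) ^ k := by
  have hb0 : (0 : ℝ) < b := by exact_mod_cast (by omega : 0 < b)
  rw [← Real.rpow_natCast, ← Real.rpow_mul hb0.le]
  ring_nf

lemma r_pos (hb : 2 ≤ b) : 0 < (b : ℝ) ^ (-α) :=
  Real.rpow_pos_of_pos (by exact_mod_cast (by omega : 0 < b)) _

lemma r_lt (hb : 2 ≤ b) (h0 : 0 < α) : (b : ℝ) ^ (-α) < 1 :=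
  Real.rpow_lt_one_of_one_lt_of_neg (by exact_mod_cast (by omega : 1 < b)) (by linarith)

lemma K_gt (hb : 2 ≤ b) (h1 : α < 1) : 1 < (b : ℝ) ^ (-α) * b := by
  have hb1 : (1 : ℝ) < b := by exact_mod_cast (by omega : 1 < b)
  have hb0 : (0 : ℝ) < b := by linarith
  have e : (b : ℝ) ^ (-α) * b = (b : ℝ) ^ (1 - α) := by
    rw [sub_eq_neg_add, Real.rpow_add hb0, Real.rpow_one]
  rw [e]
  exact Real.one_lt_rpow hb1 (by linarith)

lemma W_eq (hb : 2 ≤ b) (x : ℝ) :
    W b α g x = ∑' k : ℕ, ((b : ℝ) ^ (-α)) ^ k * g ((b : ℝ) ^ k * x) := by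
  unfold W
  simp_rw [r_pow hb]

lemma W_summable (hb : 2 ≤ b) (h0 : 0 < α) (hB : ∀ x, |g x| ≤ B) (x : ℝ) :
    Summable fun k : ℕ => ((b : ℝ) ^ (-α)) ^ k * g ((b : ℝ) ^ k * x) := by
  refine Summable.of_norm_bounded
    ((summable_geometric_of_lt_one (r_pos hb).le (r_lt hb h0)).mul_right B) fun k => ?_
  rw [norm_mul, Real.norm_eq_abs, Real.norm_eq_abs, abs_of_pos (pow_pos (r_pos hb) k)]
  exact mul_le_mul_of_nonneg_left (hB _) (pow_pos (r_pos hb) k).le

lemma W_func (hb : 2 ≤ b) (h0 : 0 < α) (hB : ∀ x, |g x| ≤ B) (x : ℝ) :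
    W b α g x = g x + (b : ℝ) ^ (-α) * W b α g (b * x) := by
  rw [W_eq hb, W_eq hb, (W_summable hb h0 hB x).tsum_eq_zero_add]
  congr 1
  · simp
  · rw [← tsum_mul_left]
    refine tsum_congr fun k => ?_
    have e : (b : ℝ) ^ (k + 1) * x = (b : ℝ) ^ k * (b * x) := by ring
    rw [e]
    ring

lemma W_inc (hb : 2 ≤ b) (h0 : 0 < α) (hB : ∀ x, |g x| ≤ B) (x h : ℝ) :
    W b α g (x + h) - W b α g x = (g (x + h) - g x) +
      (b : ℝ) ^ (-α) * (W b α g (b * x + b * h) - W b α g (b * x)) := by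
  rw [W_func hb h0 hB (x + h), W_func hb h0 hB x, mul_add]
  ring

lemma W_periodic (hb : 2 ≤ b) (hg : Function.Periodic g 1) : Function.Periodic (W b α g) 1 := by
  intro x
  rw [W_eq hb, W_eq hb]
  refine tsum_congr fun k => ?_
  have e : (b : ℝ) ^ k * (x + 1) = (b : ℝ) ^ k * x + ((b ^ k : ℕ) : ℝ) * 1 := by
    push_cast; ring
  rw [e, hg.nat_mul (b ^ k)]

lemma W_osc (hb : 2 ≤ b) (h0 : 0 < α) (hB : ∀ x, |g x| ≤ B) {M : ℝ}
    (hM : ∀ x y, |g x - g y| ≤ M) (x y : ℝ) :
    |W b α g x - W b α g y| ≤ M * (1 - (b : ℝ) ^ (-α))⁻¹ := by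
  have hg := (hasSum_geometric_of_lt_one (r_pos (α := α) hb).le (r_lt hb h0)).mul_left M
  rw [W_eq hb, W_eq hb, ← Summable.tsum_sub (W_summable hb h0 hB x) (W_summable hb h0 hB y),
    ← Real.norm_eq_abs]
  refine tsum_of_norm_bounded hg fun k => ?_
  rw [← mul_sub, norm_mul, Real.norm_eq_abs, Real.norm_eq_abs,
    abs_of_pos (pow_pos (r_pos hb) k), mul_comm]
  exact mul_le_mul_of_nonneg_right (hM _ _) (pow_pos (r_pos hb) k).le

/-- upper bounds of increments, up to level `m`. -/
lemma upper1 (hb : 2 ≤ b) (h0 : 0 < α) (h1 : α < 1) (hB : ∀ x, |g x| ≤ B) {L M : ℝ}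
    (hL : ∀ x t, 0 ≤ t → |g (x + t) - g x| ≤ L * t)
    (hM : ∀ x y, |g x - g y| ≤ M) : ∀ m : ℕ, ∀ x t : ℝ, 0 ≤ t →
      |W b α g (x + t) - W b α g x| ≤ L * t * ((((b : ℝ) ^ (-α) * b) ^ m - 1) /
        ((b : ℝ) ^ (-α) * b - 1)) + ((b : ℝ) ^ (-α)) ^ m * (M * (1 - (b : ℝ) ^ (-α))⁻¹) := by
  have hK := K_gt hb h1
  have hr0 := r_pos (α := α) hb
  have hb0 : (0 : ℝ) < b := by exact_mod_cast (by omega : 0 < b)
  set r := (b : ℝ) ^ (-α) with hr
  have hK' : r * b - 1 ≠ 0 := by linarith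
  intro m
  induction m with
  | zero =>
    intro x t ht
    have := W_osc hb h0 hB hM (x + t) x
    simpa using this
  | succ m ih =>
    intro x t ht
    rw [W_inc hb h0 hB]
    have i1 := ih (b * x) (b * t) (by positivity)
    have i2 := hL x t ht
    refine (abs_add_le _ _).trans ?_
    rw [abs_mul, abs_of_pos hr0]
    have i3 := mul_le_mul_of_nonneg_left i1 hr0.le
    have e : L * t * (((r * b) ^ (m + 1) - 1) / (r * b - 1)) + r ^ (m + 1) * (M * (1 - r)⁻¹) =
        L * t + r * (L * (b * t) * (((r * b) ^ m - 1) / (r * b - 1)) +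
          r ^ m * (M * (1 - r)⁻¹)) := by
      have : ((r * b) ^ (m + 1) - 1) / (r * b - 1) = 1 + r * b * (((r * b) ^ m - 1) /
          (r * b - 1)) := by
        field_simp
        ring
      rw [this]
      ring
    rw [e]
    linarith

/-- lower bounds of increments, up to level `m`. -/
lemma lower1 (hb : 2 ≤ b) (h0 : 0 < α) (h1 : α < 1) (hB : ∀ x, |g x| ≤ B) {L M : ℝ}
    (hL : ∀ x t, 0 ≤ t → -(L * t) ≤ g (x + t) - g x)
    (hM : ∀ x y, |g x - g y| ≤ M) : ∀ m : ℕ, ∀ x t : ℝ, 0 ≤ t →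
      -(L * t * ((((b : ℝ) ^ (-α) * b) ^ m - 1) /
        ((b : ℝ) ^ (-α) * b - 1)) + ((b : ℝ) ^ (-α)) ^ m * (M * (1 - (b : ℝ) ^ (-α))⁻¹)) ≤
        W b α g (x + t) - W b α g x := by
  have hK := K_gt hb h1
  have hr0 := r_pos (α := α) hb
  have hb0 : (0 : ℝ) < b := by exact_mod_cast (by omega : 0 < b)
  set r := (b : ℝ) ^ (-α) with hr
  have hK' : r * b - 1 ≠ 0 := by linarith
  intro m
  induction m with
  | zero =>
    intro x t ht
    have := (abs_le.mp (W_osc hb h0 hB hM (x + t) x)).1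
    simpa using this
  | succ m ih =>
    intro x t ht
    rw [W_inc hb h0 hB]
    have i1 := ih (b * x) (b * t) (by positivity)
    have i2 := hL x t ht
    have i3 := mul_le_mul_of_nonneg_left i1 hr0.le
    have e : L * t * (((r * b) ^ (m + 1) - 1) / (r * b - 1)) + r ^ (m + 1) * (M * (1 - r)⁻¹) =
        L * t + r * (L * (b * t) * (((r * b) ^ m - 1) / (r * b - 1)) +
          r ^ m * (M * (1 - r)⁻¹)) := by
      have : ((r * b) ^ (m + 1) - 1) / (r * b - 1) = 1 + r * b * (((r * b) ^ m - 1) /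
          (r * b - 1)) := by
        field_simp
        ring
      rw [this]
      ring
    rw [e]
    linarith

end series

section sawtooth

/-- the sawtooth function: on `[0,1)` it is `min t (lam (1-t))`. -/
noncomputable def sig (lam x : ℝ) : ℝ := min (Int.fract x) (lam * (1 - Int.fract x))

variable {lam : ℝ}

lemma sig_periodic (lam : ℝ) : Function.Periodic (sig lam) 1 := by
  intro x
  unfold sig
  rw [Int.fract_add_one]

lemma sig_nonneg (hl : 0 ≤ lam) (x : ℝ) : 0 ≤ sig lam x := by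
  unfold sig
  have h1 := Int.fract_nonneg x
  have h2 := Int.fract_lt_one x
  exact le_min h1 (mul_nonneg hl (by linarith))

lemma sig_le (hl : 0 ≤ lam) (x : ℝ) : sig lam x ≤ lam / (1 + lam) := by
  unfold sig
  have h1 := Int.fract_nonneg x
  have h2 := Int.fract_lt_one x
  have hpos : 0 < 1 + lam := by linarith
  rcases le_total (Int.fract x) (lam / (1 + lam)) with h | h
  · exact (min_le_left _ _).trans h
  · refine (min_le_right _ _).trans ?_
    have e : lam * (1 - lam / (1 + lam)) = lam / (1 + lam) := by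
      field_simp
      ring
    rw [← e]
    exact mul_le_mul_of_nonneg_left (by linarith) hl

/-- a function of the form `n ↦ c n + φ(t)` with `φ` monotone on `[0,1)` and `φ ≤ c`, `0 ≤ φ` is
monotone. -/
lemma mono_aux {c : ℝ} {φ : ℝ → ℝ} (hc : 0 ≤ c)
    (hφ : ∀ s t, 0 ≤ s → s ≤ t → t < 1 → φ s ≤ φ t)
    (hφ0 : ∀ t, 0 ≤ t → t < 1 → 0 ≤ φ t) (hφ1 : ∀ t, 0 ≤ t → t < 1 → φ t ≤ c) {x y : ℝ}
    (hxy : x ≤ y) : c * ⌊x⌋ + φ (Int.fract x) ≤ c * ⌊y⌋ + φ (Int.fract y) := by
  have hfl : ⌊x⌋ ≤ ⌊y⌋ := Int.floor_le_floor hxy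
  rcases hfl.lt_or_eq with h | h
  · have h1 : (⌊x⌋ : ℝ) + 1 ≤ ⌊y⌋ := by exact_mod_cast h
    have h2 := hφ1 _ (Int.fract_nonneg x) (Int.fract_lt_one x)
    have h3 := hφ0 _ (Int.fract_nonneg y) (Int.fract_lt_one y)
    have h4 := mul_le_mul_of_nonneg_left h1 hc
    linarith
  · have h1 : Int.fract x ≤ Int.fract y := by
      unfold Int.fract
      rw [h]; linarith
    have h2 := hφ _ _ (Int.fract_nonneg x) h1 (Int.fract_lt_one y)
    rw [h]
    linarith

lemma sig_lower (hl : 0 ≤ lam) (x t : ℝ) (ht : 0 ≤ t) :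
    -(lam * t) ≤ sig lam (x + t) - sig lam x := by
  have h := mono_aux (c := lam) (φ := fun t => min t (lam * (1 - t)) + lam * t) hl
    (by
      intro s t hs hst ht
      have e : ∀ u : ℝ, min u (lam * (1 - u)) + lam * u = min ((1 + lam) * u) lam := by
        intro u
        rcases le_total u (lam * (1 - u)) with h | h
        · rw [min_eq_left h, min_eq_left (by linarith)]; ring
        · rw [min_eq_right h, min_eq_right (by linarith)]; ring
      rw [e, e]
      exact min_le_min (mul_le_mul_of_nonneg_left hst (by linarith)) le_rfl)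
    (by
      intro t h0 h1
      have : 0 ≤ lam * (1 - t) := mul_nonneg hl (by linarith)
      have h2 := le_min h0 this
      have h3 : 0 ≤ lam * t := mul_nonneg hl h0
      linarith)
    (by
      intro t h0 h1
      have := min_le_right t (lam * (1 - t))
      linarith)
    (x := x) (y := x + t) (by linarith)
  have h1 : x = ⌊x⌋ + Int.fract x := (Int.floor_add_fract x).symm
  have h2 : x + t = ⌊x + t⌋ + Int.fract (x + t) := (Int.floor_add_fract (x + t)).symm
  unfold sig
  have h3 : lam * ⌊x⌋ + lam * Int.fract x = lam * x := by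
    rw [← mul_add, ← h1]
  have h4 : lam * ⌊x + t⌋ + lam * Int.fract (x + t) = lam * (x + t) := by
    rw [← mul_add, ← h2]
  linarith

lemma sig_upper (hl : 0 ≤ lam) (x t : ℝ) (ht : 0 ≤ t) :
    sig lam (x + t) - sig lam x ≤ t := by
  have h := mono_aux (c := 1) (φ := fun t => t - min t (lam * (1 - t))) zero_le_one
    (by
      intro s t hs hst ht
      have e : ∀ u : ℝ, u - min u (lam * (1 - u)) = max 0 ((1 + lam) * u - lam) := by
        intro u
        rcases le_total u (lam * (1 - u)) with h | h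
        · rw [min_eq_left h, max_eq_left (by linarith)]; ring
        · rw [min_eq_right h, max_eq_right (by linarith)]; ring
      rw [e, e]
      refine max_le_max le_rfl ?_
      have := mul_le_mul_of_nonneg_left hst (by linarith : 0 ≤ 1 + lam)
      linarith)
    (by
      intro t h0 h1
      have := min_le_left t (lam * (1 - t))
      linarith)
    (by
      intro t h0 h1
      have : 0 ≤ lam * (1 - t) := mul_nonneg hl (by linarith)
      have h2 := le_min h0 this
      linarith)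
    (x := x) (y := x + t) (by linarith)
  have h1 : x = ⌊x⌋ + Int.fract x := (Int.floor_add_fract x).symm
  have h2 : x + t = ⌊x + t⌋ + Int.fract (x + t) := (Int.floor_add_fract (x + t)).symm
  unfold sig
  linarith

lemma sig_eq (hl : 0 ≤ lam) {x h : ℝ} (hh : 0 ≤ h) (hx : Int.fract x + h ≤ lam / (1 + lam)) :
    sig lam (x + h) - sig lam x = h := by
  have hpos : 0 < 1 + lam := by linarith
  have hlt : lam / (1 + lam) < 1 := by rw [div_lt_one hpos]; linarith
  have h0 := Int.fract_nonneg x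
  have e : Int.fract (x + h) = Int.fract x + h := by
    rw [Int.fract_eq_iff]
    refine ⟨by linarith, by linarith, ⌊x⌋, ?_⟩
    have := Int.floor_add_fract x
    linarith
  have key : ∀ t : ℝ, t ≤ lam / (1 + lam) → min t (lam * (1 - t)) = t := by
    intro t ht
    apply min_eq_left
    rw [le_div_iff₀ hpos] at ht
    linarith
  unfold sig
  rw [e, key _ hx, key _ (by linarith)]
  ring

/-- The main lower bound. -/
lemma main_lower {b : ℕ} {α : ℝ} (hb : 2 ≤ b) (h0 : 0 < α) (h1 : α < 1) {m : ℕ} (hl : 0 < lam)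
    (C1 : lam * ((b : ℝ) ^ (-α) * b) ^ (m + 1) / ((b : ℝ) ^ (-α) * b - 1) ≤ 1 / 4)
    (C2 : ((b : ℝ) ^ (-α)) ^ (m + 1) * (1 - (b : ℝ) ^ (-α))⁻¹ ≤ 1 / (8 * b)) (z : ℝ) :
    ∀ n : ℕ, ∀ x h : ℝ, 0 < h → lam / (1 + lam) / 2 / b < (b : ℝ) ^ n * h →
      (b : ℝ) ^ n * h ≤ lam / (1 + lam) / 2 → Int.fract ((b : ℝ) ^ n * x - z) ≤
        lam / (1 + lam) / 2 →
      h * (((b : ℝ) ^ (-α) * b) ^ n / 2 - lam * ((((b : ℝ) ^ (-α) * b) ^ n - 1) /
        ((b : ℝ) ^ (-α) * b - 1))) ≤
      W b α (fun x => sig lam (x - z)) (x + h) - W b α (fun x => sig lam (x - z)) x := by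
  have hK := K_gt hb h1
  have hr0 := r_pos (α := α) hb
  have hr1 := r_lt hb h0
  have hb0 : (0 : ℝ) < b := by exact_mod_cast (by omega : 0 < b)
  set r := (b : ℝ) ^ (-α) with hr
  have hKp : 0 < r * b - 1 := by linarith
  set δ := lam / (1 + lam) with hδ
  have hδ0 : 0 < δ := by positivity
  have hinv : 0 < (1 - r)⁻¹ := inv_pos.mpr (by linarith)
  have hδ1 : δ < 1 := by rw [hδ, div_lt_one (by linarith)]; linarith
  have hB : ∀ x, |(fun x => sig lam (x - z)) x| ≤ δ := fun x => by
    simp only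
    rw [abs_of_nonneg (sig_nonneg hl.le _)]
    exact sig_le hl.le _
  have hL : ∀ x t, 0 ≤ t → -(lam * t) ≤ (fun x => sig lam (x - z)) (x + t) -
      (fun x => sig lam (x - z)) x := fun x t ht => by
    have := sig_lower hl.le (x - z) t ht
    simp only
    have e : x + t - z = x - z + t := by ring
    rw [e]
    exact this
  have hM : ∀ x y, |(fun x => sig lam (x - z)) x - (fun x => sig lam (x - z)) y| ≤ δ :=
    fun x y => by
      simp only
      have a1 := sig_nonneg hl.le (x - z)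
      have a2 := sig_nonneg hl.le (y - z)
      have a3 := sig_le hl.le (x - z)
      have a4 := sig_le hl.le (y - z)
      rw [abs_le]
      constructor <;> linarith
  intro n
  induction n with
  | zero =>
    intro x h hh hlow hup hfr
    rw [pow_zero, one_mul] at hlow hup hfr
    rw [W_inc hb h0 hB]
    have i1 : sig lam (x + h - z) - sig lam (x - z) = h := by
      have e : x + h - z = x - z + h := by ring
      rw [e]
      exact sig_eq hl.le hh.le (by linarith)
    rw [i1]
    have i2 := lower1 hb h0 h1 hB hL hM m (b * x) (b * h) (by positivity)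
    rw [← hr] at i2
    have i3 := mul_le_mul_of_nonneg_left i2 hr0.le
    have i4 : r * (lam * (b * h) * (((r * b) ^ m - 1) / (r * b - 1)) + r ^ m *
        (δ * (1 - r)⁻¹)) ≤ h / 4 + h / 4 := by
      have j1 : r * (lam * (b * h) * (((r * b) ^ m - 1) / (r * b - 1))) ≤ h / 4 := by
        have e : r * (lam * (b * h) * (((r * b) ^ m - 1) / (r * b - 1))) =
            h * (lam * ((r * b) ^ (m + 1) - r * b) / (r * b - 1)) := by
          field_simp
          ring
        rw [e]
        have : lam * ((r * b) ^ (m + 1) - r * b) / (r * b - 1) ≤ 1 / 4 := by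
          refine le_trans ?_ C1
          apply div_le_div_of_nonneg_right _ hKp.le
          apply mul_le_mul_of_nonneg_left _ hl.le
          linarith
        nlinarith
      have j2 : r * (r ^ m * (δ * (1 - r)⁻¹)) ≤ h / 4 := by
        have e : r * (r ^ m * (δ * (1 - r)⁻¹)) = δ * (r ^ (m + 1) * (1 - r)⁻¹) := by ring
        rw [e]
        have : δ * (r ^ (m + 1) * (1 - r)⁻¹) ≤ δ * (1 / (8 * b)) :=
          mul_le_mul_of_nonneg_left C2 hδ0.le
        have e2 : δ * (1 / (8 * b)) = (δ / 2 / b) / 4 := by field_simp; ring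
        rw [e2] at this
        linarith
      linarith
    simp only [pow_zero, sub_self, zero_div, mul_zero, sub_zero]
    linarith
  | succ n ih =>
    intro x h hh hlow hup hfr
    rw [W_inc hb h0 hB]
    have i1 := ih (b * x) (b * h) (by positivity) (by rw [pow_succ] at hlow; linarith)
      (by rw [pow_succ] at hup; linarith)
      (by
        have e : (b : ℝ) ^ n * (b * x) = (b : ℝ) ^ (n + 1) * x := by ring
        rw [e]; exact hfr)
    have i2 := hL x h hh.le
    have i3 := mul_le_mul_of_nonneg_left i1 hr0.le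
    have e : h * ((r * b) ^ (n + 1) / 2 - lam * (((r * b) ^ (n + 1) - 1) / (r * b - 1))) =
        -(lam * h) + r * (b * h * ((r * b) ^ n / 2 - lam * (((r * b) ^ n - 1) /
          (r * b - 1)))) := by
      have : ((r * b) ^ (n + 1) - 1) / (r * b - 1) = 1 + r * b * (((r * b) ^ n - 1) /
          (r * b - 1)) := by
        field_simp
        ring
      rw [this]
      ring
    rw [e]
    linarith

end sawtooth

section final

lemma norm_coe_of {x : ℝ} (hx : |x| ≤ 1 / 2) : ‖(x : AddCircle (1 : ℝ))‖ = |x| := by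
  rw [AddCircle.norm_coe_eq_abs_iff (1 : ℝ) one_ne_zero]
  simpa using hx

/-- the functions `D_z(x) = dist(x, z)` on the circle. -/
noncomputable def Dz (z x : ℝ) : ℝ := ‖((x - z : ℝ) : AddCircle (1 : ℝ))‖

lemma Dz_nonneg (z x : ℝ) : 0 ≤ Dz z x := norm_nonneg _

lemma Dz_le (z x : ℝ) : Dz z x ≤ 1 / 2 := by
  have := AddCircle.norm_le_half_period (1 : ℝ) (x := ((x - z : ℝ) : AddCircle (1 : ℝ)))
    one_ne_zero
  simpa [Dz] using this

lemma Dz_lip (z x y : ℝ) : |Dz z x - Dz z y| ≤ |x - y| := by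
  unfold Dz
  refine (abs_norm_sub_norm_le _ _).trans ?_
  rw [← AddCircle.coe_sub]
  have : x - z - (y - z) = x - y := by ring
  rw [this]
  exact (QuotientAddGroup.norm_mk_le_norm).trans (le_of_eq (Real.norm_eq_abs _))

lemma coe_nat (n : ℕ) : ((n : ℝ) : AddCircle (1 : ℝ)) = 0 := by
  rw [AddCircle.coe_eq_zero_iff]
  exact ⟨(n : ℤ), by simp⟩

lemma Dz_per (z : ℝ) (n : ℕ) (x : ℝ) : Dz z (x + n) = Dz z x := by
  unfold Dz
  have : x + n - z = x - z + n := by ring
  rw [this, AddCircle.coe_add, coe_nat, add_zero]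

/-- the function with `W = D_z`. -/
noncomputable def gz (b : ℕ) (α z x : ℝ) : ℝ := Dz z x - (b : ℝ) ^ (-α) * Dz z (b * x)

variable {b : ℕ} {α : ℝ}

lemma W_gz (hb : 2 ≤ b) (h0 : 0 < α) (z x : ℝ) : W b α (gz b α z) x = Dz z x := by
  have hB : ∀ x, |Dz z x| ≤ 1 / 2 := fun x => by
    rw [abs_of_nonneg (Dz_nonneg z x)]; exact Dz_le z x
  have h1 := W_func hb h0 hB x
  have s1 := W_summable hb h0 hB x
  have s2 := W_summable hb h0 hB (b * x)
  have h2 : W b α (gz b α z) x = W b α (Dz z) x - (b : ℝ) ^ (-α) * W b α (Dz z) (b * x) := by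
    rw [W_eq hb, W_eq hb, W_eq hb, ← tsum_mul_left, ← Summable.tsum_sub s1 (s2.mul_left _)]
    refine tsum_congr fun k => ?_
    unfold gz
    have : (b : ℝ) * ((b : ℝ) ^ k * x) = (b : ℝ) ^ k * (b * x) := by ring
    rw [this]
    ring
  rw [h2, h1]
  ring

lemma d_eq (x y : ℝ) : d x y = ‖((x - y : ℝ) : AddCircle (1 : ℝ))‖ := by
  unfold d
  rw [AddCircle.norm_eq]
  simp only [inv_one, one_mul, mul_one]
  apply le_antisymm
  · exact ciInf_le ⟨0, by rintro _ ⟨n, rfl⟩; exact abs_nonneg _⟩ (round (x - y))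
  · exact le_ciInf fun n => round_le (x - y) n

/-- reduction to `y = x + h`, `0 ≤ h = d(x,y) ≤ 1/2`. -/
lemma reduce (x y : ℝ) : ∃ x' h : ℝ, 0 ≤ h ∧ h ≤ 1 / 2 ∧ d x y = h ∧
    ((∀ F : ℝ → ℝ, Function.Periodic F 1 → F x = F x' ∧ F y = F (x' + h)) ∨
      (∀ F : ℝ → ℝ, Function.Periodic F 1 → F y = F x' ∧ F x = F (x' + h))) := by
  set n := round (y - x) with hn
  set h := y - x - n with hh
  have habs : |h| ≤ 1 / 2 := abs_sub_round (y - x)
  have hd : d x y = |h| := by
    rw [d_eq]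
    have e : x - y = -(h + n) := by rw [hh]; ring
    rw [e, AddCircle.coe_neg, norm_neg, AddCircle.coe_add]
    have : (((n : ℤ) : ℝ) : AddCircle (1 : ℝ)) = 0 := by
      rw [AddCircle.coe_eq_zero_iff]
      exact ⟨n, by simp⟩
    rw [this, add_zero, norm_coe_of habs]
  have hy : ∀ F : ℝ → ℝ, Function.Periodic F 1 → F y = F (x + h) := by
    intro F hF
    have e : y = x + h + (n : ℤ) * 1 := by rw [hh]; ring
    rw [e, hF.int_mul n]
  rcases le_total 0 h with h0 | h0
  · refine ⟨x, h, h0, by rwa [abs_of_nonneg h0] at habs, by rw [hd, abs_of_nonneg h0],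
      Or.inl fun F hF => ⟨rfl, hy F hF⟩⟩
  · rw [abs_of_nonpos h0] at habs hd
    refine ⟨x + h, -h, by linarith, habs, hd, Or.inr fun F hF => ⟨hy F hF, ?_⟩⟩
    congr 1; ring

/-- **Theorem.** For every integer `b ≥ 2` and every `0 < α < 1` there are `m ≥ 1` and `1`-periodic
Lipschitz functions `g_1, …, g_m` for which the Weierstrass embedding is `α`-bi-Hölder. -/
theorem result (b : ℕ) (hb : 2 ≤ b) (α : ℝ) (h0 : 0 < α) (h1 : α < 1) :
    ∃ m : ℕ, 1 ≤ m ∧ ∃ g : Fin m → ℝ → ℝ,
      (∀ i, Function.Periodic (g i) 1 ∧ ∃ K : NNReal, LipschitzWith K (g i)) ∧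
      ∃ C : ℝ, 1 ≤ C ∧ ∀ x y : ℝ, C⁻¹ * d x y ^ α ≤ ‖Phi b α g x - Phi b α g y‖ ∧
        ‖Phi b α g x - Phi b α g y‖ ≤ C * d x y ^ α := by
  have hb1 : (1 : ℝ) < b := by exact_mod_cast (by omega : 1 < b)
  have hb0 : (0 : ℝ) < b := by linarith
  have hK := K_gt hb h1
  have hr0 := r_pos (α := α) hb
  have hr1 := r_lt hb h0
  set r := (b : ℝ) ^ (-α) with hr
  have hKp : 0 < r * b - 1 := by linarith
  have hinv : 0 < (1 - r)⁻¹ := inv_pos.mpr (by linarith)
  -- parameters
  obtain ⟨m, C2⟩ : ∃ m : ℕ, r ^ (m + 1) * (1 - r)⁻¹ ≤ 1 / (8 * b) := by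
    obtain ⟨n, hn⟩ := exists_pow_lt_of_lt_one
      (show 0 < 1 / (8 * (b : ℝ)) / (1 - r)⁻¹ by positivity) hr1
    refine ⟨n, ?_⟩
    rw [lt_div_iff₀ hinv] at hn
    refine le_trans ?_ hn.le
    exact mul_le_mul_of_nonneg_right (pow_le_pow_of_le_one hr0.le hr1.le (Nat.le_succ n)) hinv.le
  obtain ⟨lam, hl, hl1, C1⟩ : ∃ lam : ℝ, 0 < lam ∧ lam ≤ 1 ∧
      lam * (r * b) ^ (m + 1) / (r * b - 1) ≤ 1 / 4 := by
    have hp : 0 < (r * b - 1) / (4 * (r * b) ^ (m + 1)) := by positivity
    refine ⟨min 1 ((r * b - 1) / (4 * (r * b) ^ (m + 1))), lt_min one_pos hp, min_le_left _ _, ?_⟩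
    rw [div_le_iff₀ hKp]
    calc min 1 ((r * b - 1) / (4 * (r * b) ^ (m + 1))) * (r * b) ^ (m + 1) ≤
          ((r * b - 1) / (4 * (r * b) ^ (m + 1))) * (r * b) ^ (m + 1) :=
          mul_le_mul_of_nonneg_right (min_le_right _ _) (by positivity)
      _ = 1 / 4 * (r * b - 1) := by field_simp
  set δ := lam / (1 + lam) with hδ
  have hδ0 : 0 < δ := by positivity
  have hδ1 : δ ≤ 1 := by rw [hδ, div_le_one (by linarith)]; linarith
  set η := δ / 2 with hη
  have hη0 : 0 < η := by positivity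
  have hη1 : η ≤ 1 / 2 := by linarith
  obtain ⟨M, hM⟩ := exists_nat_ge (4 / η)
  have hM4 : 4 ≤ M * η := by rwa [div_le_iff₀ hη0] at hM
  have hMpos : (0 : ℝ) < M := by
    by_contra hcon
    push Not at hcon
    nlinarith
  have hMinv : 1 / (M : ℝ) ≤ η / 4 := by
    rw [div_le_div_iff₀ hMpos (by norm_num)]; linarith
  -- a net point below `x`
  have hnet : ∀ x : ℝ, ∃ j : Fin M, Int.fract (x - (j : ℕ) / M) ≤ 1 / M := by
    intro x
    have f0 := Int.fract_nonneg x
    have f1 := Int.fract_lt_one x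
    have hj1 : (⌊M * Int.fract x⌋₊ : ℝ) ≤ M * Int.fract x := Nat.floor_le (by positivity)
    have hj2 := Nat.lt_floor_add_one (M * Int.fract x)
    have hjM : ⌊M * Int.fract x⌋₊ < M := by
      have : (⌊M * Int.fract x⌋₊ : ℝ) < M := by nlinarith
      exact_mod_cast this
    refine ⟨⟨⌊M * Int.fract x⌋₊, hjM⟩, ?_⟩
    simp only
    set j : ℝ := (⌊M * Int.fract x⌋₊ : ℝ)
    have g1 : j / M ≤ Int.fract x := by rw [div_le_iff₀ hMpos]; linarith
    have g2 : Int.fract x - j / M ≤ 1 / M := by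
      rw [sub_le_iff_le_add, ← add_div, le_div_iff₀ hMpos]; linarith
    have hjp : 0 ≤ j / M := by positivity
    have e : Int.fract (x - j / M) = Int.fract x - j / M := by
      rw [Int.fract_eq_iff]
      refine ⟨by linarith, by linarith, ⌊x⌋, ?_⟩
      have := Int.floor_add_fract x
      linarith
    rw [e]; exact g2
  -- the family
  set G : Fin M ⊕ Fin M → ℝ → ℝ := fun i =>
    Sum.elim (fun j : Fin M => fun x => sig lam (x - (j : ℕ) / M))
      (fun j : Fin M => gz b α ((j : ℕ) / M)) i with hG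
  have hGper : ∀ i, Function.Periodic (G i) 1 := by
    rintro (j | j)
    · intro x
      have e : x + 1 - (j : ℕ) / (M : ℝ) = x - (j : ℕ) / M + 1 := by ring
      simp only [hG, Sum.elim_inl]
      rw [e, sig_periodic lam]
    · intro x
      simp only [hG, Sum.elim_inr]
      unfold gz
      have e1 := Dz_per ((j : ℕ) / (M : ℝ)) 1 x
      have e2 := Dz_per ((j : ℕ) / (M : ℝ)) b (b * x)
      rw [Nat.cast_one] at e1
      rw [e1, mul_add, mul_one, e2]
  have hGlip : ∀ i, ∀ x t, 0 ≤ t → |G i (x + t) - G i x| ≤ (1 + r * b) * t := by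
    rintro (j | j)
    · intro x t ht
      simp only [hG, Sum.elim_inl]
      have e : x + t - (j : ℕ) / (M : ℝ) = x - (j : ℕ) / M + t := by ring
      rw [e]
      have a1 := sig_lower hl.le (x - (j : ℕ) / M) t ht
      have a2 := sig_upper hl.le (x - (j : ℕ) / M) t ht
      have a3 : lam * t ≤ 1 * t := mul_le_mul_of_nonneg_right hl1 ht
      have a4 : 0 ≤ r * b * t := by positivity
      rw [abs_le]
      constructor <;> linarith
    · intro x t ht
      simp only [hG, Sum.elim_inr]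
      unfold gz
      rw [← hr]
      have e : Dz ((j : ℕ) / (M : ℝ)) (x + t) - r * Dz ((j : ℕ) / (M : ℝ)) (b * (x + t)) -
          (Dz ((j : ℕ) / (M : ℝ)) x - r * Dz ((j : ℕ) / (M : ℝ)) (b * x)) =
          (Dz ((j : ℕ) / (M : ℝ)) (x + t) - Dz ((j : ℕ) / (M : ℝ)) x) -
          r * (Dz ((j : ℕ) / (M : ℝ)) (b * (x + t)) - Dz ((j : ℕ) / (M : ℝ)) (b * x)) := by ring
      rw [e]
      refine (abs_sub _ _).trans ?_
      have a1 := Dz_lip ((j : ℕ) / (M : ℝ)) (x + t) x
      have a2 := Dz_lip ((j : ℕ) / (M : ℝ)) (b * (x + t)) (b * x)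
      have e1 : x + t - x = t := by ring
      have e2 : b * (x + t) - b * x = b * t := by ring
      rw [e1, abs_of_nonneg ht] at a1
      rw [e2, abs_of_nonneg (show (0 : ℝ) ≤ b * t by positivity)] at a2
      rw [abs_mul, abs_of_pos hr0]
      have a3 := mul_le_mul_of_nonneg_left a2 hr0.le
      linarith
  have hGB : ∀ i, ∀ x, |G i x| ≤ 1 := by
    rintro (j | j)
    · intro x
      simp only [hG, Sum.elim_inl]
      rw [abs_of_nonneg (sig_nonneg hl.le _)]
      exact (sig_le hl.le _).trans hδ1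
    · intro x
      simp only [hG, Sum.elim_inr]
      unfold gz
      rw [← hr]
      have a1 := Dz_nonneg ((j : ℕ) / (M : ℝ)) x
      have a2 := Dz_nonneg ((j : ℕ) / (M : ℝ)) (b * x)
      have a3 := Dz_le ((j : ℕ) / (M : ℝ)) x
      have a4 := Dz_le ((j : ℕ) / (M : ℝ)) (b * x)
      have a5 : r * Dz ((j : ℕ) / (M : ℝ)) (b * x) ≤ 1 * (1 / 2) :=
        mul_le_mul hr1.le a4 a2 zero_le_one
      have a6 := mul_nonneg hr0.le a2
      rw [abs_le]
      constructor <;> linarith
  have hGM : ∀ i, ∀ x y, |G i x - G i y| ≤ 2 := by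
    intro i x y
    refine (abs_sub _ _).trans ?_
    linarith [hGB i x, hGB i y]
  -- upper bound
  set CU : ℝ := (1 + r * b) * (r * b) / (r * b - 1) / r + 2 * (1 - r)⁻¹ with hCU
  have hCU0 : 0 ≤ CU := by positivity
  have hupper : ∀ i, ∀ x h : ℝ, 0 ≤ h → h ≤ 1 / 2 →
      |W b α (G i) (x + h) - W b α (G i) x| ≤ CU * h ^ α := by
    intro i x h hh hh2
    rcases hh.lt_or_eq with hh0 | hh0
    · obtain ⟨n, hn1, hn2⟩ := exists_nat_pow_near
        (show 1 ≤ 1 / h by rw [le_div_iff₀ hh0]; linarith) hb1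
      rw [le_div_iff₀ hh0] at hn1
      rw [div_lt_iff₀ hh0] at hn2
      have i1 := upper1 hb h0 h1 (hGB i) (hGlip i) (hGM i) (n + 1) x h hh
      rw [← hr] at i1
      have hrn : ∀ k : ℕ, r ^ k = (((b : ℝ) ^ k)⁻¹) ^ α := by
        intro k
        rw [hr, ← Real.rpow_natCast, ← Real.rpow_mul hb0.le, ← Real.rpow_natCast,
          ← Real.rpow_neg hb0.le, ← Real.rpow_mul hb0.le]
        congr 1; ring
      have hα1 : r ^ (n + 1) ≤ h ^ α := by
        rw [hrn]
        apply Real.rpow_le_rpow (by positivity) _ h0.le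
        rw [inv_le_iff_one_le_mul₀ (by positivity)]
        linarith
      have i2 : h * ((r * b) ^ (n + 1) - 1) ≤ (r * b) * r ^ n := by
        have e : h * (r * b) ^ (n + 1) = (r * b) * r ^ n * ((b : ℝ) ^ n * h) := by ring
        have : (r * b) * r ^ n * ((b : ℝ) ^ n * h) ≤ (r * b) * r ^ n * 1 :=
          mul_le_mul_of_nonneg_left hn1 (by positivity)
        nlinarith
      have i3 : r ^ n ≤ h ^ α / r := by
        rw [le_div_iff₀ hr0, ← pow_succ]; exact hα1
      have i4 : (1 + r * b) * h * (((r * b) ^ (n + 1) - 1) / (r * b - 1)) ≤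
          (1 + r * b) * (r * b) / (r * b - 1) / r * h ^ α := by
        calc (1 + r * b) * h * (((r * b) ^ (n + 1) - 1) / (r * b - 1))
            = (1 + r * b) / (r * b - 1) * (h * ((r * b) ^ (n + 1) - 1)) := by ring
          _ ≤ (1 + r * b) / (r * b - 1) * ((r * b) * r ^ n) :=
              mul_le_mul_of_nonneg_left i2 (by positivity)
          _ ≤ (1 + r * b) / (r * b - 1) * ((r * b) * (h ^ α / r)) := by gcongr
          _ = (1 + r * b) * (r * b) / (r * b - 1) / r * h ^ α := by ring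
      have i5 : r ^ (n + 1) * (2 * (1 - r)⁻¹) ≤ h ^ α * (2 * (1 - r)⁻¹) :=
        mul_le_mul_of_nonneg_right hα1 (by positivity)
      rw [hCU]
      linarith
    · rw [← hh0, add_zero, sub_self, abs_zero, Real.zero_rpow h0.ne', mul_zero]
  -- lower bound
  set c : ℝ := η / (4 * b) with hc
  have hc0 : 0 < c := by positivity
  have hlower : ∀ x h : ℝ, 0 ≤ h → h ≤ 1 / 2 → ∃ i,
      c * h ^ α ≤ |W b α (G i) (x + h) - W b α (G i) x| := by
    intro x h hh hh2
    rcases le_or_gt h η with hhη | hhη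
    · rcases hh.lt_or_eq with hh0 | hh0
      · obtain ⟨n, hn1, hn2⟩ := exists_nat_pow_near
          (show 1 ≤ η / h by rw [le_div_iff₀ hh0]; linarith) hb1
        rw [le_div_iff₀ hh0] at hn1
        rw [div_lt_iff₀ hh0] at hn2
        obtain ⟨j, hj⟩ := hnet ((b : ℝ) ^ n * x)
        refine ⟨Sum.inl j, ?_⟩
        have hlow : η / b < (b : ℝ) ^ n * h := by
          rw [div_lt_iff₀ hb0]
          rw [pow_succ] at hn2
          linarith
        have i1 := main_lower hb h0 h1 (m := m) hl C1 C2 ((j : ℕ) / (M : ℝ)) n x h hh0 hlow hn1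
          (by linarith)
        refine le_trans ?_ ((le_trans i1 (le_abs_self _)))
        rw [← hr]
        have j1 : lam / (r * b - 1) ≤ 1 / 4 := by
          refine le_trans ?_ C1
          apply div_le_div_of_nonneg_right _ hKp.le
          have : 1 ≤ (r * b) ^ (m + 1) := one_le_pow₀ hK.le
          nlinarith
        have j2 : (r * b) ^ n / 4 ≤ (r * b) ^ n / 2 - lam * (((r * b) ^ n - 1) / (r * b - 1)) := by
          have hKn : 1 ≤ (r * b) ^ n := one_le_pow₀ hK.le
          have e : lam * (((r * b) ^ n - 1) / (r * b - 1)) = lam / (r * b - 1) *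
              ((r * b) ^ n - 1) := by ring
          rw [e]
          have : lam / (r * b - 1) * ((r * b) ^ n - 1) ≤ 1 / 4 * ((r * b) ^ n - 1) :=
            mul_le_mul_of_nonneg_right j1 (by linarith)
          linarith
        have hrn : r ^ n = (((b : ℝ) ^ n)⁻¹) ^ α := by
          rw [hr, ← Real.rpow_natCast, ← Real.rpow_mul hb0.le, ← Real.rpow_natCast,
            ← Real.rpow_neg hb0.le, ← Real.rpow_mul hb0.le]
          congr 1; ring
        have hhα : h ^ α ≤ r ^ n := by
          rw [hrn]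
          apply Real.rpow_le_rpow hh0.le _ h0.le
          rw [← one_div, le_div_iff₀ (by positivity)]
          linarith
        calc c * h ^ α ≤ c * r ^ n := mul_le_mul_of_nonneg_left hhα hc0.le
          _ = r ^ n * (η / b) / 4 := by rw [hc]; field_simp
          _ ≤ r ^ n * ((b : ℝ) ^ n * h) / 4 := by gcongr
          _ = h * ((r * b) ^ n / 4) := by ring
          _ ≤ _ := mul_le_mul_of_nonneg_left j2 hh0.le
      · obtain ⟨j, -⟩ := hnet 0
        refine ⟨Sum.inl j, ?_⟩
        rw [← hh0, Real.zero_rpow h0.ne', mul_zero]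
        exact abs_nonneg _
    · obtain ⟨j, hj⟩ := hnet x
      refine ⟨Sum.inr j, ?_⟩
      simp only [hG, Sum.elim_inr]
      rw [W_gz hb h0, W_gz hb h0]
      set z : ℝ := (j : ℕ) / (M : ℝ) with hz
      have k1 : Dz z x ≤ η / 4 := by
        unfold Dz
        have e : ((x - z : ℝ) : AddCircle (1 : ℝ)) = ((Int.fract (x - z) : ℝ) :
            AddCircle (1 : ℝ)) := by
          have : x - z = Int.fract (x - z) + ((⌊x - z⌋ : ℤ) : ℝ) :=
            (Int.fract_add_floor (x - z)).symm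
          conv_lhs => rw [this]
          rw [AddCircle.coe_add]
          have : ((((⌊x - z⌋ : ℤ) : ℝ)) : AddCircle (1 : ℝ)) = 0 := by
            rw [AddCircle.coe_eq_zero_iff]
            exact ⟨⌊x - z⌋, by simp⟩
          rw [this, add_zero]
        rw [e]
        refine (QuotientAddGroup.norm_mk_le_norm).trans ?_
        rw [Real.norm_eq_abs, abs_of_nonneg (Int.fract_nonneg _)]
        exact hj.trans hMinv
      have k2 : h - Dz z x ≤ Dz z (x + h) := by
        have n1 : ‖((h : ℝ) : AddCircle (1 : ℝ))‖ = h := by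
          rw [norm_coe_of (by rw [abs_of_nonneg hh]; exact hh2), abs_of_nonneg hh]
        have n2 : ((h : ℝ) : AddCircle (1 : ℝ)) = ((x + h - z : ℝ) : AddCircle (1 : ℝ)) -
            ((x - z : ℝ) : AddCircle (1 : ℝ)) := by
          rw [← AddCircle.coe_sub]; congr 1; ring
        have n3 := norm_sub_le ((x + h - z : ℝ) : AddCircle (1 : ℝ))
          ((x - z : ℝ) : AddCircle (1 : ℝ))
        rw [← n2, n1] at n3
        unfold Dz
        linarith
      have k3 : η / 2 ≤ |Dz z (x + h) - Dz z x| := by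
        refine le_trans ?_ (le_abs_self _)
        linarith
      have k4 : h ^ α ≤ 1 := Real.rpow_le_one hh (by linarith) h0.le
      have k5 : c ≤ η / 2 := by
        rw [hc, div_le_div_iff₀ (by positivity) (by norm_num)]
        nlinarith
      calc c * h ^ α ≤ c * 1 := mul_le_mul_of_nonneg_left k4 hc0.le
        _ ≤ η / 2 := by linarith
        _ ≤ _ := k3
  -- assembling
  have hMn : 1 ≤ M := by
    have : (0 : ℝ) < M := hMpos
    exact_mod_cast this
  set E := Fintype.equivFin (Fin M ⊕ Fin M) with hE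
  set mm := Fintype.card (Fin M ⊕ Fin M) with hmm
  have hmm1 : 1 ≤ mm := by
    rw [hmm, Fintype.card_sum, Fintype.card_fin]; omega
  set g : Fin mm → ℝ → ℝ := fun i => G (E.symm i) with hg
  have hgper : ∀ i, Function.Periodic (W b α (g i)) 1 := fun i => W_periodic hb (hGper _)
  have hnup : ∀ x h : ℝ, 0 ≤ h → h ≤ 1 / 2 →
      ‖Phi b α g (x + h) - Phi b α g x‖ ≤ mm * CU * h ^ α := by
    intro x h hh hh2
    rw [EuclideanSpace.norm_eq]
    have hpos : 0 ≤ mm * CU * h ^ α := by positivity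
    apply Real.sqrt_le_iff.mpr
    refine ⟨hpos, ?_⟩
    have hle : ∀ i : Fin mm, ‖(Phi b α g (x + h) - Phi b α g x) i‖ ^ 2 ≤ (CU * h ^ α) ^ 2 := by
      intro i
      have e : (Phi b α g (x + h) - Phi b α g x) i = W b α (g i) (x + h) - W b α (g i) x := by
        simp [Phi]
      rw [e, Real.norm_eq_abs]
      exact pow_le_pow_left₀ (abs_nonneg _) (hupper _ x h hh hh2) 2
    refine (Finset.sum_le_sum fun i _ => hle i).trans ?_
    rw [Finset.sum_const, Finset.card_univ, Fintype.card_fin, nsmul_eq_mul]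
    have h1m : (1 : ℝ) ≤ mm := by exact_mod_cast hmm1
    have : (mm * CU * h ^ α) ^ 2 = (mm : ℝ) * (mm * (CU * h ^ α) ^ 2) := by ring
    rw [this]
    have h2 : 0 ≤ (mm : ℝ) * (CU * h ^ α) ^ 2 := by positivity
    nlinarith
  have hnlow : ∀ x h : ℝ, 0 ≤ h → h ≤ 1 / 2 →
      c * h ^ α ≤ ‖Phi b α g (x + h) - Phi b α g x‖ := by
    intro x h hh hh2
    obtain ⟨i, hi⟩ := hlower x h hh hh2
    have e : (Phi b α g (x + h) - Phi b α g x) (E i) = W b α (G i) (x + h) - W b α (G i) x := by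
      simp [Phi, hg]
    have := PiLp.norm_apply_le (Phi b α g (x + h) - Phi b α g x) (E i)
    rw [e, Real.norm_eq_abs] at this
    exact hi.trans this
  refine ⟨mm, hmm1, g, fun i => ⟨hGper _, ?_⟩, ?_⟩
  · refine ⟨Real.toNNReal (1 + r * b), LipschitzWith.of_dist_le_mul fun x y => ?_⟩
    rw [Real.dist_eq, Real.dist_eq, Real.coe_toNNReal _ (by positivity)]
    rcases le_total x y with hxy | hxy
    · have := hGlip (E.symm i) x (y - x) (by linarith)
      have e : x + (y - x) = y := by ring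
      rw [e] at this
      rw [abs_sub_comm, abs_sub_comm x y, abs_of_nonneg (by linarith : 0 ≤ y - x)]
      exact this
    · have := hGlip (E.symm i) y (x - y) (by linarith)
      have e : y + (x - y) = x := by ring
      rw [e] at this
      rw [abs_of_nonneg (by linarith : 0 ≤ x - y)]
      exact this
  · set C : ℝ := max 1 (max c⁻¹ (mm * CU)) with hC
    have hC1 : 1 ≤ C := le_max_left _ _
    have hCc : c⁻¹ ≤ C := (le_max_left _ _).trans (le_max_right _ _)
    have hCu : mm * CU ≤ C := (le_max_right _ _).trans (le_max_right _ _)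
    have hCinv : C⁻¹ ≤ c := by
      rw [inv_le_comm₀ (by linarith) hc0]; exact hCc
    refine ⟨C, hC1, fun x y => ?_⟩
    obtain ⟨x', h, hh0, hh2, hd, hcase⟩ := reduce x y
    have hPhi : ‖Phi b α g x - Phi b α g y‖ = ‖Phi b α g (x' + h) - Phi b α g x'‖ := by
      rcases hcase with hcase | hcase
      · have e1 : Phi b α g x = Phi b α g x' := by
          unfold Phi; congr 1; funext i; exact (hcase _ (hgper i)).1
        have e2 : Phi b α g y = Phi b α g (x' + h) := by
          unfold Phi; congr 1; funext i; exact (hcase _ (hgper i)).2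
        rw [e1, e2, norm_sub_rev]
      · have e1 : Phi b α g y = Phi b α g x' := by
          unfold Phi; congr 1; funext i; exact (hcase _ (hgper i)).1
        have e2 : Phi b α g x = Phi b α g (x' + h) := by
          unfold Phi; congr 1; funext i; exact (hcase _ (hgper i)).2
        rw [e1, e2]
    rw [hPhi, hd]
    have hα0 : 0 ≤ h ^ α := Real.rpow_nonneg hh0 α
    exact ⟨(mul_le_mul_of_nonneg_right hCinv hα0).trans (hnlow x' h hh0 hh2),
      (hnup x' h hh0 hh2).trans (mul_le_mul_of_nonneg_right hCu hα0)⟩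

end final

end Pool.Agent.Results.MP_0a5dd0_an.Embedding
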